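import Mathlib
import Pool.Agent.H964.CW.Stm2

/-! # Project CW: moments of a block from a good weight -/

set_option autoImplicit false

open MeasureTheory ProbabilityTheory Filter Finset

namespace Pool.Agent.H553.CW

open Pool.Agent.H964.QC Pool.Agent.H964.CW

lemma e0_pos : 0 < e0 := by unfold e0; positivity

lemma e0_le : e0 ≤ 1 / 1000 := by unfold e0; norm_num

lemma ev_log {r c : ℝ} (hr : 0 < r) (hc : 0 < c) :
    ∀ᶠ L : ℝ in atTop, Real.log L ≤ c * L ^ r := by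
  have h1 := (isLittleO_log_rpow_atTop hr).bound hc
  filter_upwards [h1, eventually_ge_atTop 1] with L h2 h3
  rw [Real.norm_eq_abs, Real.norm_eq_abs, abs_of_nonneg (Real.log_nonneg h3),
    abs_of_nonneg (by positivity)] at h2
  exact h2

lemma large (K K' : ℝ) : ∃ L0 : ℝ, 1 ≤ L0 ∧ ∀ L : ℝ, L0 ≤ L →
    4 ≤ L ^ e0 ∧ K * (L ^ e0) ^ 4 ≤ Real.sqrt L ∧
    L ^ e0 + Real.log L + 1 / 4 ≤ L ^ (1 / 20 : ℝ) / 2 ∧
    3 / 2 * (1 + Real.log L) + K' ≤ L ^ e0 / 2 := by
  have e1 := e0_pos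
  have e2 := e0_le
  have h1 : ∀ᶠ L : ℝ in atTop, 4 ≤ L ^ e0 := (tendsto_rpow_atTop e1).eventually_ge_atTop 4
  have h2 : ∀ᶠ L : ℝ in atTop, K ≤ L ^ (1 / 2 - 4 * e0) :=
    (tendsto_rpow_atTop (by linarith)).eventually_ge_atTop K
  have h3 : ∀ᶠ L : ℝ in atTop, 8 ≤ L ^ (1 / 20 - e0) :=
    (tendsto_rpow_atTop (by linarith)).eventually_ge_atTop 8
  have h4 : ∀ᶠ L : ℝ in atTop, Real.log L ≤ 1 / 8 * L ^ (1 / 20 : ℝ) :=
    ev_log (by norm_num) (by norm_num)
  have h5 : ∀ᶠ L : ℝ in atTop, 1 ≤ L ^ (1 / 20 : ℝ) :=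
    (tendsto_rpow_atTop (by norm_num)).eventually_ge_atTop 1
  have h6 : ∀ᶠ L : ℝ in atTop, Real.log L ≤ 1 / 6 * L ^ e0 := ev_log e1 (by norm_num)
  have h7 : ∀ᶠ L : ℝ in atTop, 4 * (3 / 2 + K') ≤ L ^ e0 :=
    (tendsto_rpow_atTop e1).eventually_ge_atTop _
  have h8 := h1.and (h2.and (h3.and (h4.and (h5.and (h6.and (h7.and (eventually_ge_atTop (1 : ℝ))))))))
  obtain ⟨L0, hL0⟩ := eventually_atTop.1 h8
  refine ⟨max 1 L0, le_max_left _ _, fun L hL => ?_⟩
  obtain ⟨a1, a2, a3, a4, a5, a6, a7, a8⟩ := hL0 L ((le_max_right _ _).trans hL)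
  have hLp : 0 < L := by linarith
  refine ⟨a1, ?_, ?_, ?_⟩
  · have b1 : (L ^ e0) ^ 4 = L ^ (4 * e0) := by
      rw [← Real.rpow_natCast, ← Real.rpow_mul hLp.le]
      congr 1
      push_cast
      ring
    have b2 : Real.sqrt L = L ^ (1 / 2 - 4 * e0) * L ^ (4 * e0) := by
      rw [← Real.rpow_add hLp, Real.sqrt_eq_rpow]
      congr 1
      ring
    rw [b1, b2]
    exact mul_le_mul_of_nonneg_right a2 (by positivity)
  · have b1 : L ^ (1 / 20 : ℝ) = L ^ (1 / 20 - e0) * L ^ e0 := by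
      rw [← Real.rpow_add hLp]
      congr 1
      ring
    have b2 : 8 * L ^ e0 ≤ L ^ (1 / 20 : ℝ) := by
      rw [b1]
      exact mul_le_mul_of_nonneg_right a3 (by positivity)
    have b3 : 4 ≤ L ^ e0 := a1
    linarith
  · linarith

lemma hh_one_le (g : ℝ) (t a : ℕ) : 1 ≤ hh g t a := le_max_left _ _

lemma log_x {x : ℝ} (hx : 0 ≤ x) : |x - Real.log (1 + x)| ≤ x ^ 2 := by
  have h1 : 0 < 1 + x := by linarith
  have h2 := Real.log_le_sub_one_of_pos h1
  have h3 := Real.one_sub_inv_le_log_of_pos h1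
  rw [abs_le]
  constructor
  · nlinarith [sq_nonneg x]
  · have h4 : x - x ^ 2 ≤ 1 - (1 + x)⁻¹ := by
      have h5 : (1 + x)⁻¹ ≤ 1 - x + x ^ 2 := by
        rw [inv_le_iff_one_le_mul₀ h1]
        nlinarith [mul_nonneg hx (sq_nonneg x)]
      linarith
    linarith

/-- the elementary consequences of the choice of the block -/
lemma block_data (hRR : S_RR) {s2 L L' A : ℝ} {t T : ℕ} (hs : 0 < s2) (hL : L = 1 / s2 - RR t)
    (hL' : L' = 1 / s2 - RR (t + T)) (hA1 : 1 ≤ A) (hAL : A ^ 2 + 1 ≤ L / 2)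
    (hup : RR (t + T) - RR t ≤ A ^ 2 + 1) (ht : (1 / s2) ^ (1 / 20 : ℝ) ≤ RR t) :
    L / 2 ≤ L' ∧ L' ≤ L ∧ 1 ≤ t ∧ 2 * L ^ (1 / 20 : ℝ) - 1 ≤ Real.log t ∧
      (A ^ 2 ≤ RR (t + T) - RR t → Real.exp (2 * A ^ 2) * t ≤ ((t + T : ℕ) : ℝ)) ∧
      Real.log (1 + (T : ℝ) / t) ≤ 9 * A ^ 2 ∧ s2 * RR T < 1 ∧
      s2 * (1 / (1 - s2 * RR T)) ≤ 2 / L := by
  obtain ⟨hr1, hr2, hr3, hr4, hr5, hr6, hr7⟩ := hRR
  have hRRnn : ∀ n, 0 ≤ RR n := fun n => Finset.sum_nonneg fun i _ => (hr1 i).le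
  have hRRmono : ∀ a b : ℕ, a ≤ b → RR a ≤ RR b := by
    intro a b hab
    have h1 := hr6 a b hab
    have h2 : 0 ≤ Real.log (((b : ℝ) + 1) / ((a : ℝ) + 1)) := by
      apply Real.log_nonneg
      rw [one_le_div (by positivity)]
      have : (a : ℝ) ≤ b := by exact_mod_cast hab
      linarith
    linarith
  have hLL' : L' ≤ L := by
    rw [hL, hL']
    have := hRRmono t (t + T) (Nat.le_add_right _ _)
    linarith
  have hLpos : 0 < L := by nlinarith
  have hL1 : L ≤ 1 / s2 := by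
    rw [hL]; have := hRRnn t; linarith
  have hLhalf : L / 2 ≤ L' := by
    have : L' = L - (RR (t + T) - RR t) := by rw [hL, hL']; ring
    linarith
  have hLt : L ^ (1 / 20 : ℝ) ≤ RR t :=
    (Real.rpow_le_rpow hLpos.le hL1 (by norm_num)).trans ht
  have hLt0 : 0 < L ^ (1 / 20 : ℝ) := Real.rpow_pos_of_pos hLpos _
  have ht1 : 1 ≤ t := by
    rcases Nat.eq_zero_or_pos t with h | h
    · exfalso
      rw [h] at hLt
      have h1 : RR 0 = 0 := by simp [RR]
      rw [h1] at hLt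
      linarith
    · exact h
  have ht0 : (0 : ℝ) < t := by exact_mod_cast (by omega : 0 < t)
  have hlogt : 2 * L ^ (1 / 20 : ℝ) - 1 ≤ Real.log t := by
    have := hr7 t ht1
    linarith
  have hA := hr5 t (t + T) ht1 (Nat.le_add_right _ _)
  have hratio : A ^ 2 ≤ RR (t + T) - RR t → Real.exp (2 * A ^ 2) * t ≤ ((t + T : ℕ) : ℝ) := by
    intro h
    rw [← le_div_iff₀ ht0, ← Real.le_log_iff_exp_le (by positivity)]
    linarith
  have hB := hr6 t (t + T) (Nat.le_add_right _ _)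
  have hlog : Real.log (1 + (T : ℝ) / t) ≤ 9 * A ^ 2 := by
    have h1 : 1 + (T : ℝ) / t ≤ 2 * ((((t + T : ℕ) : ℝ) + 1) / ((t : ℝ) + 1)) := by
      have h2 : 1 + (T : ℝ) / t = ((t : ℝ) + T) / t := by field_simp
      rw [h2, ← mul_div_assoc, div_le_div_iff₀ ht0 (by positivity)]
      push_cast
      have h3 : (1 : ℝ) ≤ t := by exact_mod_cast ht1
      have h4 : (0 : ℝ) ≤ T := Nat.cast_nonneg _
      nlinarith
    have h2 : Real.log (1 + (T : ℝ) / t) ≤ Real.log 2 +
        Real.log ((((t + T : ℕ) : ℝ) + 1) / ((t : ℝ) + 1)) := by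
      rw [← Real.log_mul (by norm_num) (by positivity)]
      apply Real.log_le_log (by positivity) h1
    have h3 : Real.log 2 ≤ 1 := by
      have := Real.log_two_lt_d9
      linarith
    nlinarith
  have hlt : s2 * RR T < 1 := by
    have h1 := hRRmono T (t + T) (Nat.le_add_left _ _)
    have h2 : 0 < 1 / s2 - RR T := by linarith
    have h3 : 0 < s2 * (1 / s2 - RR T) := mul_pos hs h2
    rw [mul_sub, mul_one_div, div_self hs.ne'] at h3
    linarith
  have hsE : s2 * (1 / (1 - s2 * RR T)) ≤ 2 / L := by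
    have h1 := hRRmono T (t + T) (Nat.le_add_left _ _)
    have h2 : L / 2 ≤ 1 / s2 - RR T := by linarith
    have h3 : s2 * (L / 2) ≤ 1 - s2 * RR T := by
      have := mul_le_mul_of_nonneg_left h2 hs.le
      rwa [mul_sub, mul_one_div, div_self hs.ne'] at this
    have h4 : 0 < 1 - s2 * RR T := by linarith
    rw [mul_one_div, div_le_div_iff₀ h4 (by linarith)]
    linarith
  exact ⟨hLhalf, hLL', ht1, hlogt, hratio, hlog, hlt, hsE⟩

/-- Markov's inequality for the fourth moment -/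
lemma markov4 {Ω : Type} [MeasurableSpace Ω] (P : Measure Ω) [IsProbabilityMeasure P] {X : Ω → ℝ}
    (hX : Integrable (fun ω => X ω ^ 4) P) {q : ℝ} (hq : q ≤ 1 / 2) :
    P.real {ω | 1 + X ω < q} ≤ 16 * ∫ ω, X ω ^ 4 ∂P := by
  have h1 := mul_meas_ge_le_integral_of_nonneg (μ := P) (f := fun ω => X ω ^ 4)
    (Eventually.of_forall fun ω => by positivity) hX (1 / 16)
  have h2 : P.real {ω | 1 + X ω < q} ≤ P.real {ω | 1 / 16 ≤ X ω ^ 4} := by
    apply measureReal_mono
    · intro ω hω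
      simp only [Set.mem_ofPred_eq] at hω ⊢
      have h3 : (1 / 4 : ℝ) ≤ X ω ^ 2 := by nlinarith
      nlinarith
    · exact measure_ne_top _ _
  linarith

/-- integrability of the fourth power of the centred field -/
lemma XX_int4 (hMEAS : S_MEAS) {V : Type} [Fintype V] [DecidableEq V] {C0 : ℝ} {N0 : ℕ}
    (W : Wlk V C0 N0) {Ω : Type} [MeasurableSpace Ω] (P : Measure Ω) [IsProbabilityMeasure P]
    {s2 κ : ℝ} {η : ℕ → V → Ω → ℝ} (hN : Noise P s2 κ η) (w : V → ℝ) (T j : ℕ) :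
    Integrable (fun ω => (XX W w T (cfg η ω) j) ^ 4) P := by
  obtain ⟨-, -, -, -, -, -, -, hZ, -⟩ := hMEAS V C0 N0 W Ω P s2 κ η hN
  have h1 : MemLp (fun ω => XX W w T (cfg η ω) j) 4 P := by
    unfold XX
    apply memLp_finsetSum
    intro z _
    apply MemLp.const_mul
    exact (hZ j z).sub (memLp_const 1)
  have h2 := h1.integrable_norm_pow (p := 4) (by norm_num)
  refine h2.congr (Eventually.of_forall fun ω => ?_)
  simp only [Real.norm_eq_abs]
  exact (even_two_mul 2).pow_abs _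

lemma pw {A : ℝ} (h : 4 ≤ A) : A ≤ A ^ 2 ∧ 4 * A ≤ A ^ 2 ∧ 16 ≤ A ^ 2 ∧ A ^ 2 ≤ A ^ 4 ∧
    A ^ 3 ≤ A ^ 4 ∧ 1 ≤ A ^ 4 := by
  have h1 : 4 * A ≤ A ^ 2 := by nlinarith
  have h2 : 16 ≤ A ^ 2 := by linarith
  have h3 : A ^ 2 ≤ A ^ 4 := by nlinarith
  have h4 : A ^ 3 ≤ A ^ 4 := pow_le_pow_right₀ (by linarith) (by norm_num)
  exact ⟨by linarith, h1, h2, h3, h4, by linarith⟩

lemma exp_q {a : ℝ} (h : 4 ≤ a) : Real.exp (-(a / 4)) ≤ 1 / 2 := by
  have h2 : Real.exp (-(a / 4)) ≤ Real.exp (-1) := Real.exp_le_exp.2 (by linarith)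
  have h3 : Real.exp (-1) * Real.exp 1 = 1 := by rw [← Real.exp_add]; norm_num
  have h4 : (2 : ℝ) ≤ Real.exp 1 := by
    have := Real.add_one_le_exp (1 : ℝ)
    linarith
  have h5 := Real.exp_pos (-1)
  nlinarith

lemma exp_two : Real.exp 2 ≤ 8 := by
  have e2 : Real.exp 2 = Real.exp 1 * Real.exp 1 := by rw [← Real.exp_add]; norm_num
  rw [e2]
  have e3 := Real.exp_one_lt_d9
  have e4 := Real.exp_pos 1
  nlinarith

theorem t_BK1 : S_BK1 := by
  intro hRR hUU hHH hOV hGS hGSg hB2 hBC hF4 hTH hPH hM2 hMEAS hDUAL hCLN hM4 hT1 hT3 C0 κ hC0 hκ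
  obtain ⟨Cg, hCg, hGS'⟩ := hGS C0 hC0
  obtain ⟨Cq, hCq, hGSg'⟩ := hGSg hRR hOV C0 hC0
  obtain ⟨Cb, hCb, hB2'⟩ := hB2 hRR hUU hOV hGS hM2 C0 κ hC0 hκ
  obtain ⟨Cc, hCc, hBC'⟩ := hBC hRR hOV hCLN hMEAS hM2 hDUAL C0 κ hC0 hκ
  obtain ⟨Cf, hCf, hF4'⟩ := hF4 hM4 hT1 hT3 hOV hHH hRR hTH hPH C0 κ hC0 hκ
  have hCf0 : 0 < Cf := by linarith
  have hCg0 : 0 < Cg := by linarith
  have hCq0 : 0 < Cq := by linarith
  have hCb0 : 0 < Cb := by linarith
  have hCc0 : 0 < Cc := by linarith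
  obtain ⟨F, hF⟩ : ∃ F, F = Cf * (520 * Cq + 4 * Cg) := ⟨_, rfl⟩
  have hF0 : 0 < F := by rw [hF]; positivity
  obtain ⟨L1, hL1, hlarge⟩ := large (4 + 20 * Cf + 4 * Cg + 32 * F) (1 + Real.log Cc)
  refine ⟨(4 + 4 * Cb) + F + 16, L1 + Cc, by linarith, by linarith, ?_⟩
  intro V _ _ N0 W Ω _ P _ s2 η w t T L L' hs hN hL hL' hL0 ht hup hN0 hgood
  have hLL0 : L' ≤ L := by
    obtain ⟨hr1, -, -, -, -, hr6, -⟩ := hRR
    have h1 := hr6 t (t + T) (Nat.le_add_right _ _)
    have h2 : 0 ≤ Real.log ((((t + T : ℕ) : ℝ) + 1) / ((t : ℝ) + 1)) := by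
      apply Real.log_nonneg
      rw [one_le_div (by positivity)]
      push_cast
      have : (0 : ℝ) ≤ T := Nat.cast_nonneg _
      linarith
    rw [hL, hL']
    linarith
  obtain ⟨k1, k2, k3, -⟩ := hlarge L (by linarith)
  obtain ⟨k1', -, -, k4⟩ := hlarge L' (by linarith)
  obtain ⟨A, hA⟩ : ∃ A, A = L ^ e0 := ⟨_, rfl⟩
  obtain ⟨A', hA'⟩ : ∃ A', A' = L' ^ e0 := ⟨_, rfl⟩
  have hLpos : 0 < L := by linarith
  have hL'pos : 0 < L' := by linarith
  have hA2 : L ^ (2 * e0) = A ^ 2 := by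
    rw [hA, ← Real.rpow_natCast, ← Real.rpow_mul hLpos.le]
    congr 1
    push_cast
    ring
  have hA4 : L ^ (4 * e0) = A ^ 4 := by
    rw [hA, ← Real.rpow_natCast, ← Real.rpow_mul hLpos.le]
    congr 1
    push_cast
    ring
  have hp1 : L ^ (2 * e0 - 1) = A ^ 2 / L := by
    rw [Real.rpow_sub hLpos, Real.rpow_one, hA2]
  have hp2 : L ^ (4 * e0 - 2) = A ^ 4 / L ^ 2 := by
    rw [Real.rpow_sub hLpos, hA4]
    norm_num
  have hp3 : L ^ (e0 - 1) = A / L := by
    rw [Real.rpow_sub hLpos, Real.rpow_one, hA]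
  rw [hp1, hp2, hp3, hA2]
  rw [hA2] at hup
  rw [← hA] at k1 k2 k3 hgood
  rw [← hA'] at k1' k4
  rw [← hA']
  -- consequences of k2
  obtain ⟨S, hS⟩ : ∃ S, S = Real.sqrt L := ⟨_, rfl⟩
  have hSS : S * S = L := by rw [hS]; exact Real.mul_self_sqrt hLpos.le
  have hS1 : 1 ≤ S := by rw [hS, Real.one_le_sqrt]; linarith
  have hSL : S ≤ L := by
    rw [← hSS]; exact le_mul_of_one_le_left (by linarith) hS1
  rw [← hS] at k2
  have hA0 : 0 < A := by linarith
  obtain ⟨hA2A, hA4A, hA16, hA24, hA34, hA41⟩ := pw k1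
  have hA4p : 0 < A ^ 4 := by positivity
  have r1 := mul_pos hCf0 hA4p
  have r2 := mul_pos hCg0 hA4p
  have r3 := mul_pos hF0 hA4p
  have q1 : 4 * A ^ 4 ≤ S := by linarith
  have q2 : 20 * Cf * A ^ 4 ≤ S := by linarith
  have q3 : (4 + 4 * Cg) * A ^ 4 ≤ S := by linarith
  have q4 : 32 * F * A ^ 4 ≤ S := by linarith
  have hAL : A ^ 2 + 1 ≤ L / 2 := by linarith
  obtain ⟨hLh, hLL, ht1, hlogt, hratio, hlog, hlt, hsE⟩ :=
    block_data hRR hs hL hL' (by linarith) hAL hup ht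
  have ht0 : (0 : ℝ) < t := by exact_mod_cast (by omega : 0 < t)
  obtain ⟨E, hE⟩ : ∃ E, E = 1 / (1 - s2 * RR T) := ⟨_, rfl⟩
  rw [← hE] at hsE
  have hE0 : 0 < E := by rw [hE]; apply one_div_pos.2; linarith
  have hsE0 : 0 < s2 * E := mul_pos hs hE0
  have hexpA : 1 ≤ Real.exp A := Real.one_le_exp hA0.le
  have hTN : T ≤ N0 := by omega
  have htTN : t + T ≤ N0 := by omega
  have hw0 := hgood.nonneg
  have hw1 := hgood.sum
  obtain ⟨g1, -, -, g4⟩ := hGS' V N0 W w t T (Real.exp A) ht1 hexpA htTN hgood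
  rw [Real.log_exp] at g1
  -- the exponent of the weight function
  obtain ⟨g, hg⟩ : ∃ g, g = 1 / A := ⟨_, rfl⟩
  have hg0 : 0 < g := by rw [hg]; positivity
  have hg4 : g ≤ 1 / 4 := by
    rw [hg]
    exact one_div_le_one_div_of_le (by norm_num) k1
  have hginv : 1 / g = A := by rw [hg]; field_simp
  obtain ⟨Λ, hΛ⟩ : ∃ Λ, Λ = 1 / g + Real.log (1 + (T : ℝ) / t) := ⟨_, rfl⟩
  have hlog0 : 0 ≤ Real.log (1 + (T : ℝ) / t) := by
    apply Real.log_nonneg
    have : 0 ≤ (T : ℝ) / t := by positivity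
    linarith
  have hΛ0 : 0 ≤ Λ := by rw [hΛ, hginv]; linarith
  have hΛA : Λ ≤ 10 * A ^ 2 := by rw [hΛ, hginv]; linarith
  have hcond : Cf * s2 * E * (1 / g + Real.log (1 + (T : ℝ) / t)) ≤ 1 := by
    rw [← hΛ]
    calc Cf * s2 * E * Λ = Cf * (s2 * E) * Λ := by ring
      _ ≤ Cf * (2 / L) * (10 * A ^ 2) := by
          apply mul_le_mul _ hΛA hΛ0 (by positivity)
          exact mul_le_mul_of_nonneg_left hsE hCf0.le
      _ = (20 * Cf) * A ^ 2 / L := by ring
      _ ≤ 1 := by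
          rw [div_le_one hLpos]
          have : 20 * Cf * A ^ 2 ≤ 20 * Cf * A ^ 4 :=
            mul_le_mul_of_nonneg_left hA24 (by positivity)
          linarith
  -- fourth moment
  have hfour : ∫ ω, (XX W w T (cfg η ω) T) ^ 4 ∂P ≤ F * (A ^ 4 / L ^ 2) := by
    refine (hF4' V N0 W Ω P s2 E g η w t T hs hN ht1 hTN hlt hE hg0 hg4 hcond hw0 hw1).trans ?_
    rw [← hΛ]
    have a1 : s2 * E * Λ * (s2 * E) * ∑ m ∈ Finset.Icc 1 T, ov W w m * hh g t m ≤
        520 * Cq * (A ^ 4 / L ^ 2) := by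
      have b0 := hGSg' V N0 W w t T (Real.exp A) g ht1 hexpA htTN hgood hg0 hg4
      have b2 : Real.exp A ^ (2 * g) ≤ 8 := by
        rw [← Real.exp_mul]
        have e1 : A * (2 * g) = 2 := by rw [hg]; field_simp
        rw [e1]
        exact exp_two
      rw [Real.log_exp] at b0
      have b1 : ∑ m ∈ Finset.Icc 1 T, ov W w m * hh g t m ≤ 13 * Cq * A ^ 2 := by
        refine b0.trans ?_
        have b3 : Real.exp A ^ (2 * g) * (1 + A) ≤ 8 * (1 + A) :=
          mul_le_mul_of_nonneg_right b2 (by linarith)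
        have b4 : Real.exp A ^ (2 * g) * (1 + A) + Real.log (1 + (T : ℝ) / t) ≤ 13 * A ^ 2 := by
          linarith
        calc Cq * (Real.exp A ^ (2 * g) * (1 + A) + Real.log (1 + (T : ℝ) / t))
            ≤ Cq * (13 * A ^ 2) := mul_le_mul_of_nonneg_left b4 hCq0.le
          _ = 13 * Cq * A ^ 2 := by ring
      calc s2 * E * Λ * (s2 * E) * ∑ m ∈ Finset.Icc 1 T, ov W w m * hh g t m
          ≤ s2 * E * Λ * (s2 * E) * (13 * Cq * A ^ 2) :=
            mul_le_mul_of_nonneg_left b1 (by positivity)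
        _ ≤ (2 / L) * (10 * A ^ 2) * (2 / L) * (13 * Cq * A ^ 2) := by
            apply mul_le_mul_of_nonneg_right _ (by positivity)
            apply mul_le_mul _ hsE hsE0.le (by positivity)
            exact mul_le_mul hsE hΛA hΛ0 (by positivity)
        _ = 520 * Cq * (A ^ 4 / L ^ 2) := by ring
    have a2 : s2 * E * ((t : ℝ) + 1) ^ g * ∑ m ∈ Finset.Icc 1 T, ov W w m / m ≤
        4 * Cg * (A ^ 4 / L ^ 2) := by
      have c1 : ((t : ℝ) + 1) ^ g ≤ 2 * (t : ℝ) ^ (1 / 4 : ℝ) := by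
        have d1 : (t : ℝ) + 1 ≤ 2 * t := by
          have : (1 : ℝ) ≤ t := by exact_mod_cast ht1
          linarith
        calc ((t : ℝ) + 1) ^ g ≤ ((t : ℝ) + 1) ^ (1 / 4 : ℝ) :=
              Real.rpow_le_rpow_of_exponent_le (by linarith) hg4
          _ ≤ (2 * (t : ℝ)) ^ (1 / 4 : ℝ) :=
              Real.rpow_le_rpow (by positivity) d1 (by norm_num)
          _ = 2 ^ (1 / 4 : ℝ) * (t : ℝ) ^ (1 / 4 : ℝ) := Real.mul_rpow (by norm_num) ht0.le
          _ ≤ 2 * (t : ℝ) ^ (1 / 4 : ℝ) := by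
              apply mul_le_mul_of_nonneg_right _ (by positivity)
              calc (2 : ℝ) ^ (1 / 4 : ℝ) ≤ 2 ^ (1 : ℝ) :=
                    Real.rpow_le_rpow_of_exponent_le (by norm_num) (by norm_num)
                _ = 2 := Real.rpow_one 2
      have c2 : Real.exp A * L ≤ (t : ℝ) ^ (1 / 4 : ℝ) := by
        have e1 : Real.exp A * L = Real.exp (A + Real.log L) := by
          rw [Real.exp_add, Real.exp_log hLpos]
        rw [e1, Real.rpow_def_of_pos ht0]
        apply Real.exp_le_exp.2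
        linarith
      have c3 : Real.sqrt t = (t : ℝ) ^ (1 / 4 : ℝ) * (t : ℝ) ^ (1 / 4 : ℝ) := by
        rw [← Real.rpow_add ht0, Real.sqrt_eq_rpow]
        norm_num
      obtain ⟨q, hq⟩ : ∃ q, q = (t : ℝ) ^ (1 / 4 : ℝ) := ⟨_, rfl⟩
      rw [← hq] at c1 c2 c3
      have hq0 : 0 < q := lt_of_lt_of_le (by positivity) c2
      rw [c3] at g4
      calc s2 * E * ((t : ℝ) + 1) ^ g * ∑ m ∈ Finset.Icc 1 T, ov W w m / m
          ≤ s2 * E * ((t : ℝ) + 1) ^ g * (Cg * Real.exp A / (q * q)) :=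
            mul_le_mul_of_nonneg_left g4 (by positivity)
        _ ≤ (2 / L) * (2 * q) * (Cg * Real.exp A / (q * q)) := by
            apply mul_le_mul_of_nonneg_right _ (by positivity)
            exact mul_le_mul hsE c1 (by positivity) (by positivity)
        _ = 4 * Cg * (Real.exp A / (L * q)) := by field_simp; norm_num
        _ ≤ 4 * Cg * (1 / L ^ 2) := by
            apply mul_le_mul_of_nonneg_left _ (by positivity)
            rw [div_le_div_iff₀ (by positivity) (by positivity)]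
            have := mul_le_mul_of_nonneg_left c2 hLpos.le
            linarith
        _ ≤ 4 * Cg * (A ^ 4 / L ^ 2) := by
            apply mul_le_mul_of_nonneg_left _ (by positivity)
            exact div_le_div_of_nonneg_right hA41 (by positivity)
    calc Cf * (s2 * E * Λ * (s2 * E) * ∑ m ∈ Finset.Icc 1 T, ov W w m * hh g t m
          + s2 * E * ((t : ℝ) + 1) ^ g * ∑ m ∈ Finset.Icc 1 T, ov W w m / m)
        ≤ Cf * (520 * Cq * (A ^ 4 / L ^ 2) + 4 * Cg * (A ^ 4 / L ^ 2)) :=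
          mul_le_mul_of_nonneg_left (add_le_add a1 a2) hCf0.le
      _ = F * (A ^ 4 / L ^ 2) := by rw [hF]; ring
  obtain ⟨u1, u2⟩ := hB2' V N0 W Ω P s2 η w t T (Real.exp A) L' hs hN ht1 hexpA htTN hL'
    (by linarith) hgood
  rw [Real.log_exp] at u1 u2
  refine ⟨?_, ?_, ?_⟩
  · -- second moment
    refine u1.trans ?_
    have h1 : (RR (t + T) - RR t + Cb * (1 + A)) / L' ≤ (4 + 4 * Cb) * (A ^ 2 / L) := by
      rw [← mul_div_assoc, div_le_div_iff₀ hL'pos hLpos]
      have h2 : RR (t + T) - RR t + Cb * (1 + A) ≤ (2 + 2 * Cb) * A ^ 2 := by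
        have : Cb * (1 + A) ≤ Cb * (2 * A ^ 2) := mul_le_mul_of_nonneg_left (by linarith) hCb0.le
        linarith
      have h3 : (RR (t + T) - RR t + Cb * (1 + A)) * L ≤ (2 + 2 * Cb) * A ^ 2 * L :=
        mul_le_mul_of_nonneg_right h2 hLpos.le
      have h4 : (2 + 2 * Cb) * A ^ 2 * L ≤ (2 + 2 * Cb) * A ^ 2 * (2 * L') :=
        mul_le_mul_of_nonneg_left (by linarith) (by positivity)
      linarith
    refine h1.trans ?_
    apply mul_le_mul_of_nonneg_right _ (by positivity)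
    linarith
  · refine hfour.trans ?_
    apply mul_le_mul_of_nonneg_right _ (by positivity)
    linarith
  · intro hlow
    have hrat := hratio hlow
    have hexp3 : 1 + 2 * A ^ 2 ≤ Real.exp (2 * A ^ 2) := by
      have := Real.add_one_le_exp (2 * A ^ 2)
      linarith
    have htT : t ≤ T := by
      have h1 : (1 + 2 * A ^ 2) * (t : ℝ) ≤ ((t + T : ℕ) : ℝ) :=
        (mul_le_mul_of_nonneg_right hexp3 ht0.le).trans hrat
      push_cast at h1
      have h2 : (t : ℝ) ≤ T := by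
        have : (t : ℝ) ≤ A ^ 2 * t := le_mul_of_one_le_left ht0.le (by linarith)
        linarith
      exact_mod_cast h2
    have hD : RR (t + T) - RR t = L - L' := by rw [hL, hL']; ring
    rw [hD] at u1 u2 hup
    constructor
    · have u2' := u2 htT (by linarith)
      obtain ⟨x, hx⟩ : ∃ x, x = (L - L') / L' := ⟨_, rfl⟩
      have hx0 : 0 ≤ x := by rw [hx]; exact div_nonneg (by linarith) hL'pos.le
      have hLx : L / L' = 1 + x := by rw [hx]; field_simp; ring
      have hxlog := log_x hx0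
      have hxle : x ≤ 4 * (A ^ 2 / L) := by
        rw [hx, ← mul_div_assoc, div_le_div_iff₀ hL'pos hLpos]
        have h3 : (L - L') * L ≤ (2 * A ^ 2) * L :=
          mul_le_mul_of_nonneg_right (by linarith) hLpos.le
        have h4 : (2 * A ^ 2) * L ≤ (2 * A ^ 2) * (2 * L') :=
          mul_le_mul_of_nonneg_left (by linarith) (by positivity)
        linarith
      have hx2 : x ^ 2 ≤ 16 * (A / L) := by
        calc x ^ 2 ≤ (4 * (A ^ 2 / L)) ^ 2 := pow_le_pow_left₀ hx0 hxle 2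
          _ = 16 * (A * (A ^ 3 / L) / L) := by ring
          _ ≤ 16 * (A / L) := by
              have h5 : A ^ 3 / L ≤ 1 := by
                rw [div_le_one hLpos]
                linarith
              apply mul_le_mul_of_nonneg_left _ (by norm_num)
              apply div_le_div_of_nonneg_right _ hLpos.le
              exact mul_le_of_le_one_right hA0.le h5
      rw [hLx]
      have e3 : (L - L' + Cb * (1 + A)) / L' = x + Cb * (1 + A) / L' := by
        rw [hx]; ring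
      have e4 : (L - L' - Cb * (1 + A)) / L' = x - Cb * (1 + A) / L' := by
        rw [hx]; ring
      rw [e3] at u1
      rw [e4] at u2'
      have e5 : Cb * (1 + A) / L' ≤ 4 * Cb * (A / L) := by
        rw [← mul_div_assoc, div_le_div_iff₀ hL'pos hLpos]
        have h3 : Cb * (1 + A) * L ≤ Cb * (2 * A) * L :=
          mul_le_mul_of_nonneg_right (mul_le_mul_of_nonneg_left (by linarith) hCb0.le) hLpos.le
        have h4 : Cb * (2 * A) * L ≤ Cb * (2 * A) * (2 * L') :=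
          mul_le_mul_of_nonneg_left (by linarith) (by positivity)
        linarith
      have e7 : (16 + 4 * Cb) * (A / L) ≤ ((4 + 4 * Cb) + F + 16) * (A / L) := by
        apply mul_le_mul_of_nonneg_right _ (by positivity)
        linarith
      rw [abs_le] at hxlog ⊢
      constructor <;> linarith
    · -- goodness
      have hCcL : Cc ≤ L' := by linarith
      have hov : ∑ m ∈ Finset.Icc 1 T, ov W w m ≤ L' := by
        refine g1.trans ?_
        rw [hD]
        have h1 : Cg * (1 + A) ≤ Cg * (2 * A ^ 4) :=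
          mul_le_mul_of_nonneg_left (by linarith) hCg0.le
        linarith
      have hspr : ∑ x, w x * W.d x ≤ ((t + T : ℕ) : ℝ) := by
        refine hgood.spread.trans (le_trans ?_ hrat)
        apply mul_le_mul_of_nonneg_right _ ht0.le
        apply Real.exp_le_exp.2
        linarith
      have h1 := hBC' V N0 W Ω P s2 η w t T L' (Real.exp A') (Real.exp (-(A' / 4))) hs hN
        (by omega) htT hN0 hL' hCcL (Real.one_le_exp (by linarith)) (Real.exp_pos _)
        (Real.exp_le_one_iff.2 (by linarith)) hw0 hw1 hgood.cls hspr hov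
      have hq2 : Real.exp (-(A' / 4)) ≤ 1 / 2 := exp_q k1'
      have h2 := markov4 P (XX_int4 hMEAS W P hN w T T) hq2
      have hpow : L ^ (-(3 / 2) : ℝ) = 1 / (L * S) := by
        rw [Real.rpow_neg hLpos.le, one_div]
        congr 1
        rw [hS, Real.sqrt_eq_rpow]
        nth_rewrite 2 [← Real.rpow_one L]
        rw [← Real.rpow_add hLpos]
        norm_num
      have h3 : Cc / (Real.exp A' * Real.exp (-(A' / 4)) ^ 2) ≤ 1 / 2 * L ^ (-(3 / 2) : ℝ) := by
        have e1 : Real.exp A' * Real.exp (-(A' / 4)) ^ 2 = Real.exp (A' / 2) := by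
          rw [← Real.exp_nat_mul, ← Real.exp_add]
          congr 1
          push_cast
          ring
        have e2 : (2 * L') ^ (-(3 / 2) : ℝ) ≤ L ^ (-(3 / 2) : ℝ) :=
          Real.rpow_le_rpow_of_nonpos hLpos (by linarith) (by norm_num)
        rw [e1]
        refine le_trans ?_ (mul_le_mul_of_nonneg_left e2 (by norm_num))
        have e3 : Cc / Real.exp (A' / 2) = Real.exp (Real.log Cc - A' / 2) := by
          rw [Real.exp_sub, Real.exp_log hCc0]
        have e4 : 1 / 2 * (2 * L') ^ (-(3 / 2) : ℝ) =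
            Real.exp (-Real.log 2 + Real.log (2 * L') * (-(3 / 2))) := by
          rw [Real.exp_add, Real.exp_neg, Real.exp_log (by norm_num),
            Real.rpow_def_of_pos (by linarith)]
          norm_num
        rw [e3, e4]
        apply Real.exp_le_exp.2
        rw [Real.log_mul (by norm_num) hL'pos.ne']
        have h6 : Real.log 2 ≤ 1 := by
          have := Real.log_two_lt_d9
          linarith
        linarith
      have h4 : 16 * (F * (A ^ 4 / L ^ 2)) ≤ 1 / 2 * L ^ (-(3 / 2) : ℝ) := by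
        rw [hpow]
        have e1 : 16 * (F * (A ^ 4 / L ^ 2)) = (32 * F * A ^ 4) / (2 * L ^ 2) := by
          field_simp
          norm_num
        rw [e1]
        calc (32 * F * A ^ 4) / (2 * L ^ 2) ≤ S / (2 * L ^ 2) :=
              div_le_div_of_nonneg_right q4 (by positivity)
          _ = 1 / 2 * (1 / (L * S)) := by
              have hSp : 0 < S := by linarith
              have : L ^ 2 = L * (S * S) := by rw [hSS]; ring
              rw [this]
              field_simp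
      have h5 : P.real {ω | ¬ Good W (t + T) (Real.exp A') (nw W T w (cfg η ω))} ≤
          Cc / (Real.exp A' * Real.exp (-(A' / 4)) ^ 2) +
            P.real {ω | 1 + XX W w T (cfg η ω) T < Real.exp (-(A' / 4))} := h1
      linarith

end Pool.Agent.H553.CW
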